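import Pool.Agent.Lib.MP_fa224b_lc.BD.Defs

/-! Every Borel set is unraveled; Borel determinacy. -/

namespace Pool.Agent.Lib.MP_fa224b_lc.BD

def Cov.id (k : ℕ) (T : Tr) : Cov k T T where
  π := fun p => p
  φ := fun _ σ => σ
  len_π := fun _ => rfl
  par_π := fun _ => rfl
  tab_π := fun _ h => h
  loc := fun _ _ _ _ h => h
  lift := fun _ _ x h1 h2 => ⟨x, h1, h2, fun _ => rfl, fun h => h⟩
  inj := fun _ _ _ h => h
  surj := fun q _ => ⟨q, rfl⟩
  tab_eq := fun _ _ => rfl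
  φ_eq := fun _ _ _ _ => rfl

def Cov.comp {k : ℕ} {R S T : Tr} (c : Cov k S T) (d : Cov k R S) : Cov k R T where
  π := fun p => c.π (d.π p)
  φ := fun i σ => c.φ i (d.φ i σ)
  len_π := fun p => (c.len_π _).trans (d.len_π p)
  par_π := fun p => by rw [d.par_π, c.par_π]
  tab_π := fun p h => c.tab_π _ (d.tab_π p h)
  loc := fun i σ σ' n h => c.loc i _ _ n (d.loc i σ σ' n h)
  lift := fun i σ x h1 h2 => by
    obtain ⟨y, y1, y2, y3, y4⟩ := c.lift i _ x h1 h2
    obtain ⟨w, w1, w2, w3, w4⟩ := d.lift i σ y y1 y2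
    exact ⟨w, w1, w2, fun n => by rw [w3, y3], fun h => y4 (w4 h)⟩
  inj := fun p p' h e => d.inj p p' h (c.inj _ _ ((d.len_π p).trans_le h) e)
  surj := fun q h => by
    obtain ⟨p, rfl⟩ := c.surj q h
    obtain ⟨r, rfl⟩ := d.surj p ((c.len_π p).symm.trans_le h)
    exact ⟨r, rfl⟩
  tab_eq := fun p h => (c.tab_eq _ ((d.len_π p).trans_le h)).trans (d.tab_eq p h)
  φ_eq := fun i σ p h => by rw [c.φ_eq i _ _ ((d.len_π p).trans_lt h), d.φ_eq i σ p h]

theorem tab_mono {T : Tr} {x : ℕ → T.P} (hx : T.Br x) {n m : ℕ} (h : n ≤ m)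
    (h0 : T.tab (x n) ≠ none) : T.tab (x m) = T.tab (x n) := by
  induction m, h using Nat.le_induction with
  | base => rfl
  | succ m _ ih =>
    have := T.tab_par (x (m + 1))
    rw [(hx m).2] at this
    rw [this (ih ▸ h0), ih]

theorem Cov.det {k : ℕ} {S T : Tr} (c : Cov k S T) {A : Set (ℕ → T.P)}
    (h : S.Det {y | (fun n => c.π (y n)) ∈ A}) : T.Det A := by
  obtain ⟨i, σ, h⟩ := h
  refine ⟨i, c.φ i σ, fun x h1 h2 => ?_⟩
  obtain ⟨y, y1, y2, y3, y4⟩ := c.lift i σ x h1 h2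
  rcases h y y1 y2 with h3 | ⟨h3, h4⟩
  · exact Or.inl (y4 h3)
  · refine Or.inr ⟨fun n => y3 n ▸ c.tab_π _ (h3 n), ?_⟩
    rwa [Set.mem_ofPred_eq, funext y3] at h4

theorem dec_map {S T : Tr} (ρ : S.P → T.P) (h1 : ∀ p, T.len (ρ p) = S.len p)
    (h2 : ∀ p, ρ (S.par p) = T.par (ρ p)) (h3 : ∀ p, S.tab p = none → T.tab (ρ p) = none)
    {A : Set (ℕ → T.P)} {N : ℕ} (h : T.Dec A N) : S.Dec {y | (fun n => ρ (y n)) ∈ A} N := by
  have b : ∀ x, S.Br x → T.Br fun n => ρ (x n) := fun x hx n =>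
    ⟨(h1 _).trans (hx n).1, by rw [← h2, (hx n).2]⟩
  exact fun x y bx by' fx fy e hx =>
    h _ _ (b x bx) (b y by') (fun n => h3 _ (fx n)) (fun n => h3 _ (fy n)) (congrArg ρ e) hx

/-- the plays whose labels form a real in `X` -/
def pay (T : Tr) (lab : T.P → ℕ) (X : Set B) : Set (ℕ → T.P) :=
  {x | (fun n => lab (x (n + 1))) ∈ X}

def Unr (X : Set B) : Prop := ∀ (T : Tr) (lab : T.P → ℕ) (k : ℕ),
  ∃ (S : Tr) (c : Cov k S T) (N : ℕ), S.Dec (pay S (fun p => lab (c.π p)) X) N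

theorem unr_union (hO : StOpen) (hL : StLim) (X : ℕ → Set B) (h : ∀ j, Unr (X j)) :
    Unr (⋃ j, X j) := by
  intro T lab k
  choose F c N hF using h
  let Q : ℕ → Σ T : Tr, T.P → ℕ := fun j => Nat.rec ⟨T, lab⟩
    (fun j q => ⟨F j q.1 q.2 (k + j), fun p => q.2 ((c j q.1 q.2 (k + j)).π p)⟩) j
  obtain ⟨S, d, ρ, r0, r1, r2, r3, r4⟩ :=
    hL k (fun j => (Q j).1) fun j => c j (Q j).1 (Q j).2 (k + j)
  have e : ∀ j p, (Q j).2 (ρ j p) = lab (d.π p) := by
    intro j p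
    induction j with
    | zero => rw [r0]; rfl
    | succ j ih => rw [← ih, ← r1 j p]
  have hd : ∀ j, ∃ N, S.Dec (pay S (fun p => lab (d.π p)) (X j)) N := fun j => by
    have := dec_map (ρ (j + 1)) (r2 (j + 1)) (r3 (j + 1)) (r4 (j + 1)) (hF j (Q j).1 (Q j).2 (k + j))
    refine ⟨N j (Q j).1 (Q j).2 (k + j), ?_⟩
    simp only [pay, Set.mem_ofPred_eq, ← e (j + 1)] at this ⊢
    exact this
  obtain ⟨R, c', M, hR⟩ := hO S {p | ∀ y, S.Br y → S.Free y → y (S.len p) = p →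
    y ∈ pay S (fun p => lab (d.π p)) (⋃ j, X j)} k
  refine ⟨R, d.comp c', M, fun x y bx by' fx fy exy hx => ?_⟩
  have b : ∀ x, R.Br x → S.Br fun n => c'.π (x n) := fun x hx n =>
    ⟨(c'.len_π _).trans (hx n).1, by rw [← c'.par_π, (hx n).2]⟩
  obtain ⟨j, hj⟩ := Set.mem_iUnion.1 hx
  obtain ⟨n, hn⟩ := hd j
  obtain ⟨m, hm⟩ := hR x y bx by' fx fy exy ⟨n, fun w bw fw ew => Set.mem_iUnion.2 ⟨j,
    hn _ w (b x bx) bw (fun n => c'.tab_π _ (fx n)) fw (by rw [← ew, (b x bx n).1]) hj⟩⟩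
  exact hm _ (b y by') (fun n => c'.tab_π _ (fy n)) (by rw [(b y by' m).1])

theorem unr_borel (hO : StOpen) (hL : StLim) {X : Set B} (hX : MeasurableSet X) : Unr X := by
  let 𝒰 : MeasurableSpace B :=
    { MeasurableSet' := Unr
      measurableSet_empty := fun T _ k => ⟨T, Cov.id k T, 0, fun _ _ _ _ _ _ _ h => h⟩
      measurableSet_compl := fun X h T lab k => by
        obtain ⟨S, c, N, h⟩ := h T lab k
        exact ⟨S, c, N, fun x y bx by' fx fy e hx hy => hx (h y x by' bx fy fx e.symm hy)⟩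
      measurableSet_iUnion := unr_union hO hL }
  have : (MeasurableSpace.pi : MeasurableSpace B) ≤ 𝒰 := by
    refine iSup_le fun n => ?_
    rintro _ ⟨A, -, rfl⟩ T lab k
    refine ⟨T, Cov.id k T, n + 1, fun x y _ _ _ _ e hx => ?_⟩
    simp only [pay, Set.mem_ofPred_eq, Set.mem_preimage] at hx ⊢
    rwa [← e]
  exact this X hX

/-- the tree of finite lists -/
def base : Tr where
  P := List ℕ
  root := []
  len := List.length
  par := List.tail
  tab := fun _ => none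
  len_root := rfl
  eq_root := fun _ h => List.length_eq_zero_iff.1 h
  len_par := fun _ => List.length_tail
  pruned := fun p => ⟨0 :: p, rfl, rfl⟩
  tab_par := fun _ _ => rfl

theorem determined (hD : StDec) (hO : StOpen) (hL : StLim) {X : Set B} (hX : MeasurableSet X) :
    Determined X := by
  obtain ⟨S, c, N, h⟩ := unr_borel hO hL hX base (fun l => l.headD 0) 0
  obtain ⟨i, σ, hσ⟩ : base.Det (pay base (fun l => l.headD 0) X) := c.det (hD S _ N h)
  have br : ∀ s t, base.Br (hist s t) := fun s t n => ⟨hist_length s t n, rfl⟩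
  have nx : ∀ l : List ℕ, σ.1 l = (σ.1 l).headD 0 :: l := fun l => by
    obtain ⟨h1, h2⟩ := σ.2 l
    generalize σ.1 l = q at h1 h2
    cases q with
    | nil => exact absurd h2 (Nat.succ_ne_zero _).symm
    | cons a q => exact congrArg (a :: ·) h1
  cases i with
  | false =>
    refine Or.inl ⟨fun l => (σ.1 l).headD 0, fun t => ?_⟩
    have fo : base.Fol false σ (hist (fun l => (σ.1 l).headD 0) t) := fun n hn => by
      have : n % 2 = 0 := by simpa [turn] using hn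
      rw [nx, hist, if_pos this]
    rcases hσ _ (br _ t) fo with ⟨n, h⟩ | h
    · cases h
    · exact h.2.2 rfl
  | true =>
    refine Or.inr ⟨fun l => (σ.1 l).headD 0, fun s => ?_⟩
    have fo : base.Fol true σ (hist s fun l => (σ.1 l).headD 0) := fun n hn => by
      have : ¬ n % 2 = 0 := by simpa [turn] using hn
      rw [nx, hist, if_neg this]
    rcases hσ _ (br s _) fo with ⟨n, h⟩ | h
    · cases h
    · exact fun hx => absurd (h.2.1 hx) (by simp)

theorem adequate_pi (hD : StDec) (hO : StOpen) (hL : StLim) : Adequate MeasurableSpace.pi :=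
  ⟨le_rfl, fun _ h => h, fun _ h => determined hD hO hL h⟩

end Pool.Agent.Lib.MP_fa224b_lc.BD
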