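import Pool.Agent.Lib.MP_fa224b_lc.BD.Defs

/-! Games with taboos that are decided at a fixed level are determined. -/

namespace Pool.Agent.Lib.MP_fa224b_lc.BD

namespace Dec

variable {T : Tr} {A : Set (ℕ → T.P)} {i : Bool} {x : ℕ → T.P}

/-- the ancestor at level `n` -/
def anc (T : Tr) (p : T.P) (n : ℕ) : T.P := T.par^[T.len p - n] p

theorem anc_br (hx : T.Br x) {m n : ℕ} (h : m ≤ n) : anc T (x n) m = x m := by
  rw [anc, (hx n).1]
  induction n, h using Nat.le_induction with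
  | base => simp
  | succ n h ih => rw [Nat.succ_sub h, Function.iterate_succ_apply, (hx n).2, ih]

theorem tab_br (hx : T.Br x) {b : Bool} {m n : ℕ} (h : m ≤ n) (hm : T.tab (x m) = some b) :
    T.tab (x n) = some b := by
  induction n, h using Nat.le_induction with
  | base => exact hm
  | succ n h ih =>
    have := T.tab_par (x (n + 1))
    rw [(hx n).2, ih] at this
    exact this (by simp)

/-- `σ` wins for `i` from `p` on -/
def Wins (A : Set (ℕ → T.P)) (i : Bool) (σ : T.Str) (p : T.P) : Prop :=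
  ∀ x, T.Br x → x (T.len p) = p → (∀ n, T.len p ≤ n → turn n = i → x (n + 1) = σ.1 (x n)) →
    T.Win A i x

def W (A : Set (ℕ → T.P)) (i : Bool) (p : T.P) : Prop := ∃ σ, Wins A i σ p

/-- a strategy that moves into `Q` whenever possible -/
theorem into (Q : T.P → Prop) : ∃ σ : T.Str, ∀ p q, T.par q = p → T.len q = T.len p + 1 → Q q →
    Q (σ.1 p) := by
  have : ∀ p, ∃ r, (T.par r = p ∧ T.len r = T.len p + 1) ∧
      ∀ q, T.par q = p → T.len q = T.len p + 1 → Q q → Q r := fun p => by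
    by_cases h : ∃ q, T.par q = p ∧ T.len q = T.len p + 1 ∧ Q q
    · obtain ⟨q, h1, h2, h3⟩ := h
      exact ⟨q, ⟨h1, h2⟩, fun _ _ _ _ => h3⟩
    · obtain ⟨q, hq⟩ := T.pruned p
      exact ⟨q, hq, fun r h1 h2 h3 => absurd ⟨r, h1, h2, h3⟩ h⟩
  choose f h1 h2 using this
  exact ⟨⟨f, h1⟩, h2⟩

/-- follow `τ` below level `L`, then a winning strategy for the position reached -/
theorem glue (A : Set (ℕ → T.P)) (i : Bool) (τ : T.Str) (L : ℕ) : ∃ σ : T.Str,
    (∀ p, T.len p < L → σ.1 p = τ.1 p) ∧ ∀ x, T.Br x → W A i (x L) →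
      (∀ n, L ≤ n → turn n = i → x (n + 1) = σ.1 (x n)) → T.Win A i x := by
  have : ∀ q, ∃ s : T.Str, W A i q → Wins A i s q := fun q => by
    by_cases h : W A i q
    · exact ⟨h.choose, fun _ => h.choose_spec⟩
    · exact ⟨τ, fun h' => absurd h' h⟩
  choose s hs using this
  refine ⟨⟨fun r => if T.len r < L then τ.1 r else (s (anc T r L)).1 r, fun r => ?_⟩,
    fun p hp => if_pos hp, fun x hx hW h => hs _ hW x hx (by rw [(hx L).1]) fun n hn ht => ?_⟩
  · beta_reduce
    split_ifs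
    · exact τ.2 r
    · exact (s _).2 r
  · rw [(hx L).1] at hn
    rw [h n hn ht]
    simp only [(hx n).1, if_neg (not_lt.2 hn), anc_br hx hn]

theorem step_own {p q : T.P} (ht : turn (T.len p) = i) (h1 : T.par q = p)
    (h2 : T.len q = T.len p + 1) (h : W A i q) : W A i p := by
  obtain ⟨τ, hτ⟩ := into (W A i)
  obtain ⟨σ, s1, s2⟩ := glue A i τ (T.len p + 1)
  refine ⟨σ, fun x hx hp hf => s2 x hx ?_ fun n hn => hf n (by omega)⟩
  rw [hf _ le_rfl ht, hp, s1 p (by omega)]
  exact hτ p q h1 h2 h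

theorem step_all {p : T.P} (h : ∀ q, T.par q = p → T.len q = T.len p + 1 → W A i q) : W A i p := by
  obtain ⟨τ, -⟩ := into (W A i)
  obtain ⟨σ, -, s2⟩ := glue A i τ (T.len p + 1)
  exact ⟨σ, fun x hx hp hf => s2 x hx (h _ ((hx _).2.trans hp) (hx _).1)
    fun n hn => hf n (by omega)⟩

/-- the opponent of `i` can stay outside the winning region of `i` -/
theorem keep (A : Set (ℕ → T.P)) (i : Bool) : ∃ κ : T.Str, ∀ x, T.Br x → ∀ m n, m ≤ n →
    (∀ l, m ≤ l → l < n → turn l = !i → x (l + 1) = κ.1 (x l)) → ¬ W A i (x m) →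
      ¬ W A i (x n) := by
  obtain ⟨κ, hκ⟩ := into fun q => ¬ W A i q
  refine ⟨κ, fun x hx m n h => ?_⟩
  induction n, h using Nat.le_induction with
  | base => exact fun _ h => h
  | succ n h ih =>
    intro hf hm
    have hn := ih (fun l h1 h2 => hf l h1 (by omega)) hm
    by_cases ht : turn n = i
    · exact fun hW => hn (step_own (by rwa [(hx n).1]) (hx n).2
        (by rw [(hx n).1, (hx _).1]) hW)
    · rw [hf n h (by omega) (Bool.eq_not.2 ht)]
      by_contra hW
      refine hn (step_all fun q h1 h2 => ?_)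
      by_contra hq
      exact hκ _ q h1 h2 hq hW

theorem of_tab {p : T.P} (h : T.tab p = some (!i)) : W A i p := by
  obtain ⟨τ, -⟩ := into (W A i)
  exact ⟨τ, fun x _ hp _ => Or.inl ⟨_, hp.symm ▸ h⟩⟩

theorem decided {p : T.P} (h : ∀ x, T.Br x → x (T.len p) = p → T.Free x → (x ∈ A ↔ i = false))
    (hn : ¬ W A (!i) p) : W A i p := by
  obtain ⟨κ, hκ⟩ := keep A (!i)
  refine ⟨κ, fun x hx hp hf => ?_⟩
  by_cases hF : T.Free x
  · exact Or.inr ⟨hF, h x hx hp hF⟩
  · obtain ⟨n, hn'⟩ := not_forall.1 hF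
    obtain ⟨b, hb⟩ := Option.ne_none_iff_exists'.1 hn'
    refine Or.inl ⟨n, hb.trans (congrArg some (Bool.eq_not.2 fun e => ?_))⟩
    refine hκ x hx (T.len p) (max n (T.len p)) (le_max_right _ _)
      (fun l h1 _ h2 => hf l h1 (by simpa using h2)) (hp.symm ▸ hn) (of_tab ?_)
    rw [tab_br hx (le_max_left _ _) hb, e, Bool.not_not]

end Dec

open Dec in
theorem stDec : StDec := by
  intro T A N hD
  have root : ∀ x, T.Br x → x 0 = T.root := fun x hx => T.eq_root _ (hx 0).1
  by_cases h : W A false T.root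
  · obtain ⟨σ, hσ⟩ := h
    exact ⟨false, σ, fun x hx hf => hσ x hx (by rw [T.len_root, root x hx]) fun n _ => hf n⟩
  obtain ⟨κ, hκ⟩ := keep A false
  obtain ⟨σ, s1, s2⟩ := glue A true κ N
  refine ⟨true, σ, fun x hx hf => s2 x hx ?_ fun n _ => hf n⟩
  have hN : ¬ W A false (x N) := hκ x hx 0 N N.zero_le
    (fun l _ hl ht => (hf l ht).trans (s1 _ (by rwa [(hx l).1]))) (by rwa [root x hx])
  by_cases hA : ∃ y, T.Br y ∧ y N = x N ∧ T.Free y ∧ y ∈ A
  · obtain ⟨y, y1, y2, y3, y4⟩ := hA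
    by_contra hW
    refine hN (decided (fun z hz hp hF => iff_of_true (hD y z y1 hz y3 hF ?_ y4) rfl) hW)
    rw [(hx N).1] at hp
    rw [y2, hp]
  · refine decided (fun z hz hp hF => iff_of_false (fun hz' => hA ⟨z, hz, ?_, hF, hz'⟩)
      (by simp)) hN
    rwa [(hx N).1] at hp

end Pool.Agent.Lib.MP_fa224b_lc.BD
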