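import Pool.Agent.Lib.MP_fa224b_lc.BD.Defs

/-! Inverse limits of coverings. -/

namespace Pool.Agent.Lib.MP_fa224b_lc.BD

namespace Lim

/-- threads through a tower of sets -/
theorem tower (j : ℕ) (X : ℕ → Type) (π : ∀ m, X (m + 1) → X m) (G : ∀ m, X m → Prop)
    (hG : ∀ m, j ≤ m → ∀ r : X m, G m r → ∃ r', π m r' = r ∧ G (m + 1) r') (q : X j)
    (hq : G j q) : ∃ p : ∀ m, X m, (∀ m, π m (p (m + 1)) = p m) ∧ p j = q ∧
      ∀ m, j ≤ m → G m (p m) := by
  induction j generalizing X with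
  | zero =>
    choose u h1 h2 using fun m => hG m (Nat.zero_le m)
    let p : ∀ m, {r : X m // G m r} := fun m =>
      Nat.rec ⟨q, hq⟩ (fun m r => ⟨u m r.1 r.2, h2 m r.1 r.2⟩) m
    exact ⟨fun m => (p m).1, fun m => h1 m _ (p m).2, rfl, fun m _ => (p m).2⟩
  | succ j ih =>
    obtain ⟨p, h1, h2, h3⟩ := ih (fun m => X (m + 1)) (fun m => π (m + 1)) (fun m => G (m + 1))
      (fun m hm => hG (m + 1) (by omega)) q hq
    refine ⟨fun m => Nat.casesOn m (π 0 (p 0)) p, fun m => ?_, h2, fun m hm => ?_⟩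
    · cases m with
      | zero => rfl
      | succ m => exact h1 m
    · cases m with
      | zero => omega
      | succ m => exact h3 m (by omega)

variable {k : ℕ} {T : ℕ → Tr} (c : ∀ j, Cov (k + j) (T (j + 1)) (T j))

/-- compatible families -/
def LP : Type := {p : ∀ j, (T j).P // ∀ j, (c j).π (p (j + 1)) = p j}

variable {c}

theorem len_eq (p : LP c) (j : ℕ) : (T j).len (p.1 j) = (T 0).len (p.1 0) := by
  induction j with
  | zero => rfl
  | succ j ih => rw [← (c j).len_π, p.2, ih]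

theorem inj {p q : LP c} {j : ℕ} (h : (T 0).len (p.1 0) ≤ k + j) (e : p.1 j = q.1 j) : p = q := by
  refine Subtype.ext (funext fun m => ?_)
  rcases le_total j m with hm | hm
  · induction m, hm using Nat.le_induction with
    | base => exact e
    | succ m hm ih => exact (c m).inj _ _ (by rw [len_eq]; omega) (by rw [p.2, q.2, ih])
  · induction hm using Nat.decreasingInduction with
    | self => exact e
    | of_succ m _ ih => rw [← p.2, ← q.2, ih]

variable (c) in
theorem surj {j : ℕ} (q : (T j).P) (h : (T j).len q ≤ k + j) : ∃ p : LP c, p.1 j = q := by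
  obtain ⟨p, h1, h2, -⟩ := tower j (fun m => (T m).P) (fun m => (c m).π)
    (fun m r => (T m).len r ≤ k + j) (fun m hm r hr => by
      obtain ⟨r', hr'⟩ := (c m).surj r (by omega)
      exact ⟨r', hr', by rwa [← (c m).len_π, hr']⟩) q h
  exact ⟨⟨p, h1⟩, h2⟩

theorem tab_stab (p : LP c) {j m : ℕ} (h : (T 0).len (p.1 0) ≤ k + j) (hm : j ≤ m) :
    (T m).tab (p.1 m) = (T j).tab (p.1 j) := by
  induction m, hm using Nat.le_induction with
  | base => rfl
  | succ m hm ih => rw [← (c m).tab_eq _ (by rw [len_eq]; omega), p.2, ih]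

theorem tab_at (p : LP c) {j : ℕ} (h : (T 0).len (p.1 0) ≤ k + j) :
    (T ((T 0).len (p.1 0))).tab (p.1 _) = (T j).tab (p.1 j) :=
  (tab_stab p (m := j + (T 0).len (p.1 0)) (by omega) (by omega)).symm.trans
    (tab_stab p h (by omega))

/-- the parent of a compatible family -/
def par (p : LP c) : LP c := ⟨fun j => (T j).par (p.1 j), fun j => by rw [(c j).par_π, p.2]⟩

variable (c) in
/-- the limit tree -/
def tr : Tr where
  P := LP c
  root := ⟨fun j => (T j).root, fun j => (T j).eq_root _ (by rw [(c j).len_π, Tr.len_root])⟩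
  len p := (T 0).len (p.1 0)
  par := par
  tab p := (T ((T 0).len (p.1 0))).tab (p.1 _)
  len_root := (T 0).len_root
  eq_root p h := Subtype.ext (funext fun j => (T j).eq_root _ ((len_eq p j).trans h))
  len_par p := (T 0).len_par _
  pruned p := by
    obtain ⟨q, h1, h2⟩ := (T ((T 0).len (p.1 0) + 1)).pruned (p.1 _)
    have h3 := h2.trans (congrArg (· + 1) (len_eq p _))
    obtain ⟨r, rfl⟩ := surj c q (h3.trans_le (Nat.le_add_left _ _))
    exact ⟨r, (inj (j := (T 0).len (p.1 0) + 1) (by omega) h1.symm).symm,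
      (len_eq r _).symm.trans h3⟩
  tab_par p h := by
    have e := tab_at (par p) (j := (T 0).len (p.1 0))
      (((T 0).len_par _).trans_le (by omega))
    rw [e] at h ⊢
    exact (T _).tab_par _ h

theorem tab_none (p : LP c) (h : (tr c).tab p = none) (j : ℕ) : (T j).tab (p.1 j) = none := by
  rcases le_total j ((T 0).len (p.1 0)) with hm | hm
  · induction hm using Nat.decreasingInduction with
    | self => exact h
    | of_succ m _ ih => rw [← p.2]; exact (c m).tab_π _ ih
  · exact (tab_at p (by omega)).symm.trans h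

open Classical in
/-- the strategy on the first levels of the tree number `j` -/
noncomputable def s (σ : (tr c).Str) (j : ℕ) : (T j).Str :=
  ⟨fun q => if h : ∃ p : LP c, (T 0).len (p.1 0) ≤ k + j ∧ p.1 j = q then (σ.1 h.choose).1 j
    else ((T j).pruned q).choose, fun q => by
    dsimp only
    split_ifs with h
    · obtain ⟨h1, h2⟩ := σ.2 h.choose
      refine ⟨(congrArg (fun p : LP c => p.1 j) h1).trans h.choose_spec.2, ?_⟩
      exact ((len_eq (σ.1 h.choose) j).trans h2).trans (congrArg (· + 1)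
        ((len_eq h.choose j).symm.trans (congrArg (T j).len h.choose_spec.2)))
    · exact ((T j).pruned q).choose_spec⟩

theorem s_eq (σ : (tr c).Str) {j : ℕ} (p : LP c) (h : (T 0).len (p.1 0) ≤ k + j) :
    (s σ j).1 (p.1 j) = (σ.1 p).1 j := by
  have h1 : ∃ r : LP c, (T 0).len (r.1 0) ≤ k + j ∧ r.1 j = p.1 j := ⟨p, h, rfl⟩
  refine (dif_pos h1).trans ?_
  rw [inj h1.choose_spec.1 h1.choose_spec.2]

theorem s_loc {σ σ' : (tr c).Str} {n : ℕ} (h : ∀ p, (tr c).len p ≤ n → σ.1 p = σ'.1 p) (j : ℕ)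
    (q : (T j).P) (hq : (T j).len q ≤ n) : (s σ j).1 q = (s σ' j).1 q := by
  by_cases h1 : ∃ p : LP c, (T 0).len (p.1 0) ≤ k + j ∧ p.1 j = q
  · obtain ⟨p, h2, rfl⟩ := h1
    rw [s_eq σ p h2, s_eq σ' p h2, h p ((len_eq p j).symm.trans_le hq)]
  · simp only [s, dif_neg h1]

/-- the strategy pushed down from the tree number `j + m` -/
noncomputable def D (i : Bool) (σ : (tr c).Str) : ℕ → ∀ j, (T j).Str
  | 0, j => s σ j
  | m + 1, j => (c j).φ i (D i σ m (j + 1))

theorem D_loc (i : Bool) {σ σ' : (tr c).Str} {n : ℕ}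
    (h : ∀ p, (tr c).len p ≤ n → σ.1 p = σ'.1 p) (m j : ℕ) (q : (T j).P) (hq : (T j).len q ≤ n) :
    (D i σ m j).1 q = (D i σ' m j).1 q := by
  induction m generalizing j with
  | zero => exact s_loc h j q hq
  | succ m ih => exact (c j).loc i _ _ n (ih (j + 1)) q hq

theorem D_succ (i : Bool) (σ : (tr c).Str) (m j : ℕ) (q : (T j).P)
    (hq : (T j).len q < k + j + m) : (D i σ (m + 1) j).1 q = (D i σ m j).1 q := by
  induction m generalizing j with
  | zero =>
    obtain ⟨p, rfl⟩ := surj c q (by omega)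
    rw [len_eq] at hq
    change ((c j).φ i (s σ (j + 1))).1 (p.1 j) = (s σ j).1 (p.1 j)
    rw [s_eq σ p (by omega), ← p.2 j, (c j).φ_eq _ _ _ (by rw [len_eq]; omega),
      s_eq σ p (by omega), (σ.1 p).2]
  | succ m ih => exact (c j).loc i _ _ _ (fun p hp => ih (j + 1) p (by omega)) q le_rfl

theorem D_stab (i : Bool) (σ : (tr c).Str) {m m' j : ℕ} (q : (T j).P)
    (hq : (T j).len q < k + j + m) (hm : m ≤ m') : (D i σ m' j).1 q = (D i σ m j).1 q := by
  induction m', hm using Nat.le_induction with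
  | base => rfl
  | succ m' hm ih => rw [D_succ i σ m' j q (by omega), ih]

/-- the limit strategy -/
noncomputable def τ (i : Bool) (σ : (tr c).Str) (j : ℕ) : (T j).Str :=
  ⟨fun q => (D i σ ((T j).len q + 1) j).1 q, fun q => (D i σ _ j).2 q⟩

theorem τ_eq (i : Bool) (σ : (tr c).Str) {m j : ℕ} (q : (T j).P) (hq : (T j).len q < k + j + m) :
    (τ i σ j).1 q = (D i σ m j).1 q :=
  (D_stab i σ (m' := (T j).len q + 1 + m) q (by omega) (by omega)).symm.trans
    (D_stab i σ q hq (by omega))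

theorem φ_τ (i : Bool) (σ : (tr c).Str) (j : ℕ) : (c j).φ i (τ i σ (j + 1)) = τ i σ j :=
  Subtype.ext (funext fun q => ((c j).loc i _ (D i σ ((T j).len q) (j + 1)) _
    (fun p hp => τ_eq i σ p (by omega)) q le_rfl))

theorem lift (i : Bool) (σ : (tr c).Str) (x : ℕ → (T 0).P) (h1 : (T 0).Br x)
    (h2 : (T 0).Fol i (τ i σ 0) x) : ∃ y, (tr c).Br y ∧ (tr c).Fol i σ y ∧
      (∀ n, (y n).1 0 = x n) ∧
      ((∃ n, (tr c).tab (y n) = some (!i)) → ∃ n, (T 0).tab (x n) = some (!i)) := by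
  obtain ⟨z, a1, a2, a3⟩ := tower 0 (fun m => ℕ → (T m).P) (fun m z n => (c m).π (z n))
    (fun m z => (T m).Br z ∧ (T m).Fol i (τ i σ m) z ∧
      ((∃ n, (T m).tab (z n) = some (!i)) → ∃ n, (T 0).tab (x n) = some (!i)))
    (fun m _ z hz => by
      obtain ⟨y, b1, b2, b3, b4⟩ := (c m).lift i (τ i σ (m + 1)) z hz.1 (φ_τ i σ m ▸ hz.2.1)
      exact ⟨y, funext b3, b1, b2, fun h => hz.2.2 (b4 h)⟩) x ⟨h1, h2, id⟩
  choose b1 b2 b3 using fun m => a3 m (Nat.zero_le m)
  let y : ℕ → LP c := fun n => ⟨fun m => z m n, fun m => congrFun (a1 m) n⟩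
  refine ⟨y, fun n => ⟨(b1 0 n).1, Subtype.ext (funext fun m => (b1 m n).2)⟩, fun n hn => ?_,
    congrFun a2, fun ⟨n, hn⟩ => b3 _ ⟨n, hn⟩⟩
  refine inj (j := n + 1) ((b1 0 (n + 1)).1.trans_le (by omega)) ?_
  rw [← s_eq σ (y n) ((b1 0 n).1.trans_le (by omega))]
  exact (b2 (n + 1) n hn).trans (τ_eq i σ (m := 0) _ ((b1 _ n).1.trans_lt (by omega)))

variable (c) in
/-- the limit covering -/
noncomputable def cov : Cov k (tr c) (T 0) where
  π p := p.1 0
  φ i σ := τ i σ 0
  len_π _ := rfl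
  par_π _ := rfl
  tab_π p h := tab_none p h 0
  loc i _ _ _ h q hq := D_loc i h _ 0 q hq
  lift := lift
  inj _ _ h e := inj (j := 0) h e
  surj q h := surj c q h
  tab_eq p h := (tab_at p (j := 0) h).symm
  φ_eq i σ p h := (τ_eq i σ (m := 0) (j := 0) _ h).trans (s_eq σ p h.le)

end Lim

theorem stLim : StLim := fun _ _ c =>
  ⟨Lim.tr c, Lim.cov c, fun j p => p.1 j, rfl, fun j p => p.2 j, fun j p => Lim.len_eq p j,
    fun _ _ => rfl, fun j p h => Lim.tab_none p h j⟩

end Pool.Agent.Lib.MP_fa224b_lc.BD
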