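import Pool.Agent.Lib.MP_fa224b_lc.BD.Defs

/-! Unraveling of open sets: the covering in which II accepts or rejects a set named by I. -/

namespace Pool.Agent.Lib.MP_fa224b_lc.BD

namespace Open

variable {T : Tr}

/-- `r` is an ancestor of `p` -/
def Le (r p : T.P) : Prop := ∃ m, T.par^[m] p = r

theorem len_iter (p : T.P) (m : ℕ) : T.len (T.par^[m] p) = T.len p - m := by
  induction m with
  | zero => rfl
  | succ m ih =>
    rw [Function.iterate_succ_apply', T.len_par, ih]
    omega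

theorem Le.refl (p : T.P) : Le p p := ⟨0, rfl⟩
theorem Le.par (p : T.P) : Le (T.par p) p := ⟨1, rfl⟩
theorem Le.trans {a b c : T.P} (h : Le a b) (h' : Le b c) : Le a c := by
  obtain ⟨m, rfl⟩ := h
  obtain ⟨n, rfl⟩ := h'
  exact ⟨m + n, Function.iterate_add_apply _ _ _ _⟩
theorem Le.cases {r p : T.P} (h : Le r p) : r = p ∨ Le r (T.par p) := by
  obtain ⟨m, rfl⟩ := h
  cases m with
  | zero => exact Or.inl rfl
  | succ m => exact Or.inr ⟨m, rfl⟩
theorem Le.len {r p : T.P} (h : Le r p) : T.len r ≤ T.len p := by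
  obtain ⟨m, rfl⟩ := h
  rw [len_iter]
  omega
theorem Le.eq_of_len {r p : T.P} (h : Le r p) (h' : T.len p ≤ T.len r) : r = p := by
  rcases h.cases with e | e
  · exact e
  · have h1 := e.len
    rw [T.len_par] at h1
    rw [T.eq_root p (by omega), T.eq_root r (by omega)]
theorem Le.total {r r' p : T.P} (h : Le r p) (h' : Le r' p) : Le r r' ∨ Le r' r := by
  obtain ⟨m, rfl⟩ := h
  obtain ⟨n, rfl⟩ := h'
  rcases le_total m n with e | e
  · obtain ⟨d, rfl⟩ := Nat.exists_eq_add_of_le' e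
    exact Or.inr ⟨d, (Function.iterate_add_apply _ _ _ _).symm⟩
  · obtain ⟨d, rfl⟩ := Nat.exists_eq_add_of_le' e
    exact Or.inl ⟨d, (Function.iterate_add_apply _ _ _ _).symm⟩
theorem Le.uniq {r r' p : T.P} (h : Le r p) (h' : Le r' p) (e : T.len r = T.len r') : r = r' :=
  (h.total h').elim (fun k => k.eq_of_len e.ge) fun k => (k.eq_of_len e.le).symm
theorem Le.child {p r : T.P} (h : Le p r) (h' : T.len p < T.len r) :
    ∃ q, T.par q = p ∧ T.len q = T.len p + 1 ∧ Le q r := by
  have e : T.len (T.par^[T.len r - T.len p - 1] r) = T.len p + 1 := by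
    rw [len_iter]
    omega
  refine ⟨_, ((Le.par _).trans ⟨_, rfl⟩).uniq h ?_, e, _, rfl⟩
  rw [T.len_par, e]
  rfl
theorem br_le {x : ℕ → T.P} (hx : T.Br x) {m n : ℕ} (h : m ≤ n) : Le (x m) (x n) := by
  induction n, h using Nat.le_induction with
  | base => exact Le.refl _
  | succ n _ ih => exact ih.trans ((hx n).2 ▸ Le.par _)
theorem Le.br {x : ℕ → T.P} (hx : T.Br x) {r : T.P} {n : ℕ} (h : Le r (x n)) :
    x (T.len r) = r :=
  (br_le hx (h.len.trans (hx n).1.le)).uniq h (hx _).1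

/-- the ancestor at level `n` -/
def anc (p : T.P) (n : ℕ) : T.P := T.par^[T.len p - n] p

theorem len_anc (p : T.P) (n : ℕ) : T.len (anc p n) ≤ n := by
  rw [anc, len_iter]
  omega
theorem anc_br {x : ℕ → T.P} (hx : T.Br x) {m n : ℕ} (h : m ≤ n) : anc (x n) m = x m := by
  refine Le.uniq ⟨_, rfl⟩ (br_le hx h) ?_
  rw [anc, len_iter, (hx n).1, (hx m).1]
  omega

variable (U : Set T.P) (K : ℕ)

/-- some ancestor lies in `U` -/
def Up (p : T.P) : Prop := ∃ u ∈ U, Le u p

/-- the first taboo free positions of level at least `K + 2` above `U` -/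
def Z (p : T.P) : Prop :=
  K + 2 ≤ T.len p ∧ Up U p ∧ T.tab p = none ∧ (T.len p = K + 2 ∨ ¬Up U (T.par p))

/-- the rejected position is admissible -/
def Ok (p : T.P) (X : Set T.P) (o : Option T.P) : Prop :=
  ∀ r, o = some r → r ∈ X ∧ Z U K r ∧ (Le r p ∨ Le p r)

/-- positions of the covering tree -/
@[ext] structure Pos where
  p : T.P
  X : Set T.P
  o : Option T.P
  hX : T.len p ≤ K → X = ∅
  ho : T.len p ≤ K + 1 → o = none
  ok : Ok U K p X o

open Classical in
/-- the normalised position -/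
noncomputable def mk (p : T.P) (X : Set T.P) (o : Option T.P) : Pos U K where
  p := p
  X := if T.len p ≤ K then ∅ else X
  o := if K + 1 < T.len p ∧ Ok U K p X o then o else none
  hX h := if_pos h
  ho h := if_neg fun k => by omega
  ok r hr := by
    split_ifs at hr with h
    rw [if_neg (by omega)]
    exact h.2 r hr

variable {U K}

theorem Up.mono {p q : T.P} (h : Up U p) (h' : Le p q) : Up U q :=
  h.imp fun _ k => ⟨k.1, k.2.trans h'⟩

theorem Z.anti {z z' : T.P} (h : Z U K z) (h' : Z U K z') (e : Le z z') : z = z' := by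
  rcases e.cases with e | e
  · exact e
  · have h1 := e.len
    have h2 := h.1
    rw [T.len_par] at h1
    rcases h'.2.2.2 with k | k
    · omega
    · exact (k (h.2.1.mono e)).elim

theorem Z.uniq {z z' p : T.P} (h : Z U K z) (h' : Z U K z') (e : Le z p) (e' : Le z' p) : z = z' :=
  (e.total e').elim (h.anti h') fun k => (h'.anti h k).symm

theorem Ok.par {p : T.P} {X : Set T.P} {o : Option T.P} (h : Ok U K p X o) :
    Ok U K (T.par p) X o := fun r hr => by
  refine ⟨(h r hr).1, (h r hr).2.1, ?_⟩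
  rcases (h r hr).2.2 with e | e
  · rcases e.cases with e | e
    · exact Or.inr (e ▸ Le.par _)
    · exact Or.inl e
  · exact Or.inr ((Le.par _).trans e)

theorem mk_X {p : T.P} (h : K < T.len p) (X : Set T.P) (o : Option T.P) : (mk U K p X o).X = X :=
  if_neg (by omega)

theorem mk_o {p : T.P} (h : K + 1 < T.len p) {X : Set T.P} {o : Option T.P} (h' : Ok U K p X o) :
    (mk U K p X o).o = o := by
  classical exact if_pos ⟨h, h'⟩

theorem mk_none (p : T.P) (X : Set T.P) : (mk U K p X none).o = none := ite_self _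

theorem ext_low {w w' : Pos U K} (h : w.p = w'.p) (h' : T.len w.p ≤ K) : w = w' :=
  Pos.ext h ((w.hX h').trans (w'.hX (h ▸ h')).symm)
    ((w.ho (by omega)).trans (w'.ho (h ▸ by omega)).symm)

theorem mk_eq {p : T.P} {X X' : Set T.P} {o o' : Option T.P} (hX : K < T.len p → X = X')
    (ho : K + 1 < T.len p → o = o') : mk U K p X o = mk U K p X' o' := by
  by_cases e : T.len p ≤ K
  · exact ext_low rfl e
  · obtain rfl := hX (by omega)
    by_cases e' : T.len p ≤ K + 1
    · exact Pos.ext rfl rfl (((mk U K p X o).ho e').trans ((mk U K p X o').ho e').symm)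
    · rw [ho (by omega)]

theorem mk_self (w : Pos U K) : mk U K w.p w.X w.o = w := by
  refine Pos.ext rfl ?_ ?_
  · by_cases e : T.len w.p ≤ K
    · exact ((mk U K w.p w.X w.o).hX e).trans (w.hX e).symm
    · exact mk_X (by omega) _ _
  · by_cases e : T.len w.p ≤ K + 1
    · exact ((mk U K w.p w.X w.o).ho e).trans (w.ho e).symm
    · exact mk_o (by omega) w.ok

open Classical in
/-- taboos of the covering tree -/
noncomputable def tb (w : Pos U K) : Option Bool :=
  if w.o = none ∧ ∃ z, Z U K z ∧ z ∈ w.X ∧ Le z w.p then some true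
  else if w.o = none ∧ ∃ z, Z U K z ∧ Le z w.p then some false else T.tab w.p

theorem tb_of_not {w : Pos U K} (h : ¬(w.o = none ∧ ∃ z, Z U K z ∧ Le z w.p)) :
    tb w = T.tab w.p := by
  rw [tb, if_neg fun k => h ⟨k.1, k.2.imp fun _ e => ⟨e.1, e.2.2⟩⟩, if_neg h]

theorem tb_low {w : Pos U K} (h : T.len w.p ≤ K + 1) : tb w = T.tab w.p :=
  tb_of_not fun ⟨_, _, k1, k2⟩ => by
    have := k1.1
    have := k2.len
    omega

theorem tb_none {w : Pos U K} (h : tb w = none) :
    T.tab w.p = none ∧ ¬(w.o = none ∧ ∃ z, Z U K z ∧ Le z w.p) := by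
  unfold tb at h
  split_ifs at h with h1 h2
  exact ⟨h, h2⟩

theorem tb_par (w : Pos U K) (h : tb (mk U K (T.par w.p) w.X w.o) ≠ none) :
    tb w = tb (mk U K (T.par w.p) w.X w.o) := by
  by_cases h1 : (mk U K (T.par w.p) w.X w.o).o = none ∧ ∃ z, Z U K z ∧ Le z (T.par w.p)
  · obtain ⟨h1, z, h2, h3⟩ := h1
    have h4 : K + 1 < T.len (T.par w.p) := lt_of_lt_of_le h2.1 h3.len
    have eo := mk_o h4 w.ok.par
    have eX := mk_X (U := U) (show K < T.len (T.par w.p) by omega) w.X w.o
    have h5 := h3.trans (Le.par _)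
    have e1 : (∃ z, Z U K z ∧ z ∈ w.X ∧ Le z w.p) ↔ ∃ z, Z U K z ∧ z ∈ w.X ∧ Le z (T.par w.p) :=
      ⟨fun ⟨z', k1, k2, k3⟩ => ⟨z', k1, k2, h2.uniq k1 h5 k3 ▸ h3⟩,
        fun ⟨z', k1, k2, k3⟩ => ⟨z', k1, k2, k3.trans (Le.par _)⟩⟩
    have ho : w.o = none := eo ▸ h1
    unfold tb
    rw [eo, eX]
    by_cases h6 : ∃ z, Z U K z ∧ z ∈ w.X ∧ Le z w.p
    · rw [if_pos ⟨ho, h6⟩, if_pos ⟨ho, e1.1 h6⟩]
    · rw [if_neg fun k => h6 k.2, if_pos ⟨ho, z, h2, h5⟩, if_neg fun k => h6 (e1.2 k.2),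
        if_pos ⟨ho, z, h2, h3⟩]
  · rw [tb_of_not h1] at h ⊢
    have e := T.tab_par w.p h
    refine (tb_of_not fun ⟨k1, z, k2, k3⟩ => ?_).trans e
    rcases k3.cases with rfl | k3
    · exact h (e ▸ k2.2.2.1)
    · refine h1 ⟨?_, z, k2, k3⟩
      rw [k1]
      exact mk_none _ _

variable (U K) in
/-- the covering tree -/
noncomputable def S : Tr where
  P := Pos U K
  root := mk U K T.root ∅ none
  len w := T.len w.p
  par w := mk U K (T.par w.p) w.X w.o
  tab := tb
  len_root := T.len_root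
  eq_root w h := ext_low (T.eq_root _ h) (by omega)
  len_par w := T.len_par w.p
  pruned w := by
    obtain ⟨q, h1, h2, h3⟩ : ∃ q, T.par q = w.p ∧ T.len q = T.len w.p + 1 ∧ Ok U K q w.X w.o := by
      by_cases e : ∃ r, w.o = some r ∧ T.len w.p < T.len r
      · obtain ⟨r, e1, e2⟩ := e
        obtain ⟨q, h1, h2, h3⟩ := ((w.ok r e1).2.2.resolve_left fun k => by
          have := k.len
          omega).child e2
        refine ⟨q, h1, h2, fun r' hr => ?_⟩
        obtain rfl : r = r' := Option.some.inj (e1.symm.trans hr)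
        exact ⟨(w.ok r e1).1, (w.ok r e1).2.1, Or.inr h3⟩
      · obtain ⟨q, h1, h2⟩ := T.pruned w.p
        refine ⟨q, h1, h2, fun r hr => ⟨(w.ok r hr).1, (w.ok r hr).2.1, Or.inl ?_⟩⟩
        refine Le.trans ?_ (h1 ▸ Le.par q)
        rcases (w.ok r hr).2.2 with k | k
        · exact k
        · rw [k.eq_of_len (not_lt.1 fun k' => e ⟨r, hr, k'⟩)]
          exact Le.refl r
    refine ⟨⟨q, w.X, w.o, fun k => w.hX (by omega), fun k => w.ho (by omega), h3⟩, ?_, h2⟩
    simp only [h1]
    exact mk_self w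
  tab_par := tb_par

theorem child {w w' : Pos U K} (h : (S U K).par w' = w) :
    T.par w'.p = w.p ∧ (K < T.len w.p → w'.X = w.X) ∧ (K + 1 < T.len w.p → w'.o = w.o) := by
  subst h
  exact ⟨rfl, fun k => (mk_X k _ _).symm, fun k => (mk_o k w'.ok.par).symm⟩

theorem br_p {y : ℕ → Pos U K} (hy : (S U K).Br y) : T.Br fun n => (y n).p := fun n =>
  ⟨(hy n).1, (child (hy n).2).1⟩

theorem br_o {y : ℕ → Pos U K} (hy : (S U K).Br y) {n : ℕ} (h : K + 2 ≤ n) :
    (y n).o = (y (K + 2)).o := by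
  induction n, h using Nat.le_induction with
  | base => rfl
  | succ n h ih => exact ((child (hy n).2).2.2 (lt_of_lt_of_eq h (hy n).1.symm)).trans ih

theorem dec : (S U K).Dec {y | ∃ n, Pos.p (y n) ∈ U} (K + 2) := by
  rintro y y' hy hy' fy - e ⟨n, hn⟩
  have hx := br_p hy
  have hx' := br_p hy'
  cases ho : (y (K + 2)).o with
  | none =>
    exfalso
    have h1 : ∃ m, K + 2 ≤ m ∧ Up U (y m).p :=
      ⟨n + (K + 2), by omega, _, hn, br_le hx (Nat.le_add_right _ _)⟩
    classical
    have h2 := Nat.find_spec h1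
    have h3 := tb_none (fy (Nat.find h1))
    have h4 : T.len (y (Nat.find h1)).p = Nat.find h1 := (hx _).1
    refine h3.2 ⟨(br_o hy h2.1).trans ho, _, ⟨by omega, h2.2, h3.1, ?_⟩, Le.refl _⟩
    rcases h2.1.eq_or_lt with k | k
    · exact Or.inl (by omega)
    · obtain ⟨m, hm⟩ : ∃ m, Nat.find h1 = m + 1 := ⟨Nat.find h1 - 1, by omega⟩
      refine Or.inr fun k' => Nat.find_min h1 (m := m) (by omega) ⟨by omega, ?_⟩
      rw [hm] at k'
      exact (show T.par (y (m + 1)).p = (y m).p from (hx m).2) ▸ k'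
  | some r =>
    rw [e] at ho
    have h1 := ((y' (K + 2)).ok r ho).2.1
    have h2 := ((y' (T.len r)).ok r ((br_o hy' h1.1).trans ho)).2.2
    have h3 : T.len (y' (T.len r)).p = T.len r := (hx' _).1
    have h4 : Le r (y' (T.len r)).p := h2.elim id fun k => by
      rw [k.eq_of_len h3.ge]
      exact Le.refl r
    obtain ⟨u, hu, h5⟩ := h1.2.1
    exact ⟨T.len u, ((h5.trans h4).br hx').symm ▸ hu⟩

/-- the data of a lift: default set, triggers, and the set used at a trigger -/
noncomputable def dat (i : Bool) (σ : Pos U K → Pos U K) (q : T.P) :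
    Set T.P × Set T.P × (T.P → Set T.P) :=
  match i with
  | false => ((σ (mk U K (anc q K) ∅ none)).X, (σ (mk U K (anc q K) ∅ none)).X,
      fun _ => (σ (mk U K (anc q K) ∅ none)).X)
  | true => ({r | ¬∃ X, (σ (mk U K (anc q (K + 1)) X none)).o = some r},
      {r | ∃ X, (σ (mk U K (anc q (K + 1)) X none)).o = some r},
      fun r => Classical.epsilon fun X => (σ (mk U K (anc q (K + 1)) X none)).o = some r)

open Classical in
/-- the position over `q` which is fed into the strategy -/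
noncomputable def L (d : Set T.P × Set T.P × (T.P → Set T.P)) (q : T.P) : Pos U K :=
  if h : ∃ z, Z U K z ∧ z ∈ d.2.1 ∧ Le z q then mk U K q (d.2.2 h.choose) (some h.choose)
  else mk U K q d.1 none

theorem L_p (d : Set T.P × Set T.P × (T.P → Set T.P)) (q : T.P) : (L (U := U) (K := K) d q).p = q := by
  unfold L
  split_ifs <;> rfl

/-- the projected strategy -/
noncomputable def ph (i : Bool) (σ : (S U K).Str) : T.Str :=
  ⟨fun q => Pos.p (σ.1 (L (dat i σ.1 q) q)), fun q =>
    ⟨(child (σ.2 _).1).1.trans (L_p _ q), (σ.2 _).2.trans (congrArg (T.len · + 1) (L_p _ q))⟩⟩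

theorem ph_loc (i : Bool) (σ σ' : (S U K).Str) (n : ℕ)
    (h : ∀ p, (S U K).len p ≤ n → σ.1 p = σ'.1 p) (q : T.P) (hq : T.len q ≤ n) :
    (ph i σ).1 q = (ph i σ').1 q := by
  have e : L (U := U) (K := K) (dat i σ.1 q) q = L (dat i σ'.1 q) q := by
    by_cases k : T.len q ≤ K
    · exact ext_low ((L_p _ _).trans (L_p _ _).symm) ((L_p _ q).symm ▸ k)
    · have e1 : ∀ X, σ.1 (mk U K (anc q K) X none) = σ'.1 (mk U K (anc q K) X none) := fun X =>
        h _ ((len_anc q K).trans (by omega))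
      have e2 : ∀ X, σ.1 (mk U K (anc q (K + 1)) X none) = σ'.1 (mk U K (anc q (K + 1)) X none) :=
        fun X => h _ ((len_anc q (K + 1)).trans (by omega))
      cases i <;> simp only [dat, e1, e2]
  simp only [ph]
  rw [e, h _ (show T.len (L _ q).p ≤ n from (L_p _ q).symm ▸ hq)]

/-- the lift of a branch with fixed extra data -/
theorem fol {x : ℕ → T.P} (hx : T.Br x) {X : Set T.P} {o : Option T.P}
    (hk : ∀ r, o = some r → r ∈ X ∧ Z U K r ∧ x (T.len r) = r) (i : Bool) (σ : (S U K).Str)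
    (ha : ∀ n, turn n = i → (∀ r, o = some r → n ≤ K ∨ T.len r ≤ n) →
      x (n + 1) = Pos.p (σ.1 (mk U K (x n) X o)))
    (hb : turn K = i → Pos.X (σ.1 (mk U K (x K) X o)) = X)
    (hc : turn (K + 1) = i → Pos.o (σ.1 (mk U K (x (K + 1)) X o)) = o) :
    (S U K).Br (fun n => mk U K (x n) X o) ∧ (S U K).Fol i σ fun n => mk U K (x n) X o := by
  have ok : ∀ n, Ok U K (x n) X o := fun n r hr => by
    refine ⟨(hk r hr).1, (hk r hr).2.1, ?_⟩
    rw [← (hk r hr).2.2]
    exact (le_total _ _).imp (br_le hx) (br_le hx)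
  have hl : ∀ n, T.len (x n) = n := fun n => (hx n).1
  refine ⟨fun n => ⟨hl n, ?_⟩, fun n hn => ?_⟩
  · show mk U K (T.par (x (n + 1))) _ _ = _
    rw [(hx n).2]
    exact mk_eq (fun k => mk_X (by rw [hl] at k ⊢; omega) _ _)
      fun k => mk_o (by rw [hl] at k ⊢; omega) (ok _)
  · have h1 := child (σ.2 (mk U K (x n) X o)).1
    have h2 : T.len (Pos.p (σ.1 (mk U K (x n) X o))) = n + 1 :=
      (σ.2 _).2.trans (congrArg (· + 1) (hl n))
    have eo : K + 1 ≤ n → Pos.o (σ.1 (mk U K (x n) X o)) = o := fun k => by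
      rcases k.eq_or_lt with rfl | k
      · exact hc hn
      · have k' : K + 1 < T.len (x n) := (hl n).symm ▸ k
        exact (h1.2.2 k').trans (mk_o k' (ok n))
    have eX : K ≤ n → Pos.X (σ.1 (mk U K (x n) X o)) = X := fun k => by
      rcases k.eq_or_lt with rfl | k
      · exact hb hn
      · have k' : K < T.len (x n) := (hl n).symm ▸ k
        exact (h1.2.1 k').trans (mk_X k' _ _)
    have ep : x (n + 1) = Pos.p (σ.1 (mk U K (x n) X o)) := by
      by_cases e : ∀ r, o = some r → n ≤ K ∨ T.len r ≤ n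
      · exact ha n hn e
      · push Not at e
        obtain ⟨r, e1, e2, e3⟩ := e
        have h3 := (Pos.ok (σ.1 (mk U K (x n) X o)) r ((eo e2).trans e1)).2.2
        have h4 : Le (Pos.p (σ.1 (mk U K (x n) X o))) r := h3.elim (fun k => by
          rw [k.eq_of_len (by omega)]
          exact Le.refl _) id
        exact ((hk r e1).2.2 ▸ br_le hx e3 : Le (x (n + 1)) r).uniq h4 ((hl _).trans h2.symm)
    refine Eq.trans ?_ (mk_self _)
    rw [← ep]
    exact mk_eq (fun k => (eX (by rw [hl] at k; omega)).symm)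
      fun k => (eo (by rw [hl] at k; omega)).symm

theorem dat_br {x : ℕ → T.P} (hx : T.Br x) (i : Bool) (σ : Pos U K → Pos U K) {n : ℕ}
    (h : K + 1 ≤ n) : dat i σ (x n) = dat i σ (x (K + 1)) := by
  cases i
  · simp only [dat, anc_br hx (show K ≤ n by omega), anc_br hx (Nat.le_succ K)]
  · simp only [dat, anc_br hx h, anc_br hx (le_refl (K + 1))]

theorem ph_lift (h0 : turn K = false) (h1 : turn (K + 1) = true) (i : Bool) (σ : (S U K).Str)
    (x : ℕ → T.P) (hx : T.Br x) (hf : T.Fol i (ph i σ) x) :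
    ∃ y, (S U K).Br y ∧ (S U K).Fol i σ y ∧ (∀ n, Pos.p (y n) = x n) ∧
      ((∃ n, (S U K).tab (y n) = some (!i)) → ∃ n, T.tab (x n) = some (!i)) := by
  have hl : ∀ n, T.len (x n) = n := fun n => (hx n).1
  obtain ⟨d, hd⟩ : ∃ d, dat i σ.1 (x (K + 1)) = d := ⟨_, rfl⟩
  have low : ∀ n X o, n ≤ K → L (dat i σ.1 (x n)) (x n) = mk U K (x n) X o := fun n X o k =>
    ext_low (L_p _ _) (by rw [L_p, hl]; exact k)
  have mid : ∀ X o, mk U K (x (K + 1)) X o = mk U K (x (K + 1)) X none := fun X o =>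
    mk_eq (fun _ => rfl) fun k => by rw [hl] at k; omega
  have bot : ∀ X o, mk U K (x K) X o = mk U K (x K) ∅ none := fun X o =>
    ext_low rfl (hl K).le
  have sX : ∀ X, Pos.X (σ.1 (mk U K (x (K + 1)) X none)) = X := fun X => by
    have k : K < T.len (x (K + 1)) := by rw [hl]; omega
    exact ((child (σ.2 _).1).2.1 k).trans (mk_X k _ _)
  have fb : turn K = i → Pos.X (σ.1 (mk U K (x K) ∅ none)) = d.1 ∧
      ∀ z, Pos.X (σ.1 (mk U K (x K) ∅ none)) = d.2.2 z := fun k => by
    obtain rfl : false = i := h0.symm.trans k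
    subst hd
    simp only [dat, anc_br hx (Nat.le_succ K), implies_true, and_self]
  have fc : turn (K + 1) = i → Pos.o (σ.1 (mk U K (x (K + 1)) d.1 none)) = none ∧
      ∀ z ∈ d.2.1, Pos.o (σ.1 (mk U K (x (K + 1)) (d.2.2 z) none)) = some z := fun k => by
    obtain rfl : true = i := h1.symm.trans k
    subst hd
    simp only [dat, anc_br hx (le_refl (K + 1))]
    refine ⟨?_, fun z hz => Classical.epsilon_spec hz⟩
    refine Option.eq_none_iff_forall_ne_some.2 fun r hr => ?_
    have := (Pos.ok _ r hr).1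
    rw [sX] at this
    exact this ⟨_, hr⟩
  have f1 : ∀ z ∈ d.2.1, z ∈ d.2.2 z := fun z hz => by
    cases i
    · subst hd
      exact hz
    · have := (Pos.ok _ z ((fc h1).2 z hz)).1
      rwa [sX] at this
  have f4 : (i = false → d.1 ⊆ d.2.1) ∧ (i = true → d.1ᶜ ⊆ d.2.1) := by
    subst hd
    constructor
    · rintro rfl
      exact fun _ k => k
    · rintro rfl
      exact fun _ k => not_not.1 k
  by_cases hz : ∃ z, Z U K z ∧ z ∈ d.2.1 ∧ x (T.len z) = z
  · obtain ⟨z, z1, z2, z3⟩ := hz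
    have hF := fol hx (X := d.2.2 z) (o := some z)
      (fun r hr => Option.some.inj hr ▸ ⟨f1 z z2, z1, z3⟩) i σ (fun n hn k => ?_)
      (fun k => by rw [bot]; exact (fb k).2 z) fun k => by rw [mid]; exact (fc k).2 z z2
    · refine ⟨_, hF.1, hF.2, fun _ => rfl, fun ⟨n, hn⟩ => ⟨n, Eq.trans (Eq.symm ?_) hn⟩⟩
      by_cases e : n ≤ K + 1
      · exact tb_low ((hl n).le.trans e)
      · refine tb_of_not fun k => ?_
        rw [mk_o (by rw [hl]; omega) fun r hr => Option.some.inj hr ▸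
          ⟨f1 z z2, z1, z3 ▸ (le_total _ _).imp (br_le hx) (br_le hx)⟩] at k
        exact Option.some_ne_none _ k.1
    · refine (hf n hn).trans (congrArg (fun w => Pos.p (σ.1 w)) ?_)
      rcases k z rfl with k | k
      · exact low n _ _ k
      · have k1 : Le z (x n) := z3 ▸ br_le hx k
        have k2 : ∃ z, Z U K z ∧ z ∈ d.2.1 ∧ Le z (x n) := ⟨z, z1, z2, k1⟩
        rw [dat_br hx i σ.1 (by have := z1.1; omega), hd, L, dif_pos k2,
          k2.choose_spec.1.uniq z1 k2.choose_spec.2.2 k1]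
  · have nz : ∀ n, ¬∃ z, Z U K z ∧ z ∈ d.2.1 ∧ Le z (x n) := fun n ⟨z, z1, z2, z3⟩ =>
      hz ⟨z, z1, z2, z3.br hx⟩
    have hF := fol hx (X := d.1) (o := none) (fun r hr => (Option.some_ne_none _ hr.symm).elim) i σ
      (fun n hn _ => ?_) (fun k => by rw [bot]; exact (fb k).1) fun k => (fc k).1
    · refine ⟨_, hF.1, hF.2, fun _ => rfl, fun ⟨n, hn⟩ => ⟨n, ?_⟩⟩
      by_cases e : n ≤ K + 1
      · exact (tb_low (w := mk U K (x n) d.1 none) ((hl n).le.trans e)).symm.trans hn
      · change tb _ = _ at hn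
        unfold tb at hn
        rw [mk_X (by rw [hl]; omega)] at hn
        split_ifs at hn with k1 k2
        · obtain ⟨z, z1, z2, z3⟩ := k1.2
          cases i
          · exact (nz n ⟨z, z1, f4.1 rfl z2, z3⟩).elim
          · simp at hn
        · obtain ⟨z, z1, z3⟩ := k2.2
          cases i
          · simp at hn
          · exact (nz n ⟨z, z1, f4.2 rfl fun z2 => k1 ⟨k2.1, z, z1, z2, z3⟩, z3⟩).elim
        · exact hn
    · refine (hf n hn).trans (congrArg (fun w => Pos.p (σ.1 w)) ?_)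
      by_cases k : n ≤ K
      · exact low n _ _ k
      · rw [dat_br hx i σ.1 (by omega), hd, L, dif_neg (nz n)]

end Open

open Open in
theorem stOpen : StOpen := fun T U k => by
  refine ⟨S U (2 * k),
    { π := Pos.p
      φ := ph
      len_π := fun _ => rfl
      par_π := fun _ => rfl
      tab_π := fun _ h => (tb_none h).1
      loc := ph_loc
      lift := ph_lift (by simp [turn]) (by simp [turn])
      inj := fun p p' h e => ext_low e (le_trans h (by omega))
      surj := fun q _ => ⟨mk U (2 * k) q ∅ none, rfl⟩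
      tab_eq := fun p h => (tb_low (le_trans h (by omega))).symm
      φ_eq := fun i σ p h => congrArg (fun w => Pos.p (σ.1 w))
        (ext_low (L_p _ _) (by rw [L_p]; exact le_trans h.le (by omega))) }, 2 * k + 2, dec⟩

end Pool.Agent.Lib.MP_fa224b_lc.BD
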