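import Pool.Agent.Lib.MP_fa224b_lc.BD.Bor
import Pool.Agent.Lib.MP_fa224b_lc.BD.Dec
import Pool.Agent.Lib.MP_fa224b_lc.BD.Lim
import Pool.Agent.Lib.MP_fa224b_lc.BD.Open

/-! Borel determinacy. -/

namespace Pool.Agent.Lib.MP_fa224b_lc.BD

theorem borel_adequate : Adequate MeasurableSpace.pi := adequate_pi stDec stOpen stLim

end Pool.Agent.Lib.MP_fa224b_lc.BD
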