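import Pool.Agent.Lib.MP_fa224b_lc.Main

/-! Game trees with taboos and coverings (Martin's inductive proof of Borel determinacy). -/

namespace Pool.Agent.Lib.MP_fa224b_lc.BD

/-- a pruned rooted tree; `tab p = some i` means that player `i` (`false` is I) has already lost -/
structure Tr where
  P : Type
  root : P
  len : P → ℕ
  par : P → P
  tab : P → Option Bool
  len_root : len root = 0
  eq_root : ∀ p, len p = 0 → p = root
  len_par : ∀ p, len (par p) = len p - 1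
  pruned : ∀ p, ∃ q, par q = p ∧ len q = len p + 1
  tab_par : ∀ p, tab (par p) ≠ none → tab p = tab (par p)

/-- the player who moves at level `n` -/
def turn (n : ℕ) : Bool := decide (n % 2 = 1)

variable (T : Tr)

def Tr.Br (x : ℕ → T.P) : Prop := ∀ n, T.len (x n) = n ∧ T.par (x (n + 1)) = x n

def Tr.Str : Type := {σ : T.P → T.P // ∀ p, T.par (σ p) = p ∧ T.len (σ p) = T.len p + 1}

def Tr.Fol (i : Bool) (σ : T.Str) (x : ℕ → T.P) : Prop :=
  ∀ n, turn n = i → x (n + 1) = σ.1 (x n)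

def Tr.Free (x : ℕ → T.P) : Prop := ∀ n, T.tab (x n) = none

/-- player `i` wins the branch `x`; the payoff set of I is `A` -/
def Tr.Win (A : Set (ℕ → T.P)) (i : Bool) (x : ℕ → T.P) : Prop :=
  (∃ n, T.tab (x n) = some (!i)) ∨ (T.Free x ∧ (x ∈ A ↔ i = false))

def Tr.Det (A : Set (ℕ → T.P)) : Prop :=
  ∃ (i : Bool) (σ : T.Str), ∀ x, T.Br x → T.Fol i σ x → T.Win A i x

/-- membership in `A` of taboo free branches is decided at level `N` -/
def Tr.Dec (A : Set (ℕ → T.P)) (N : ℕ) : Prop :=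
  ∀ x y, T.Br x → T.Br y → T.Free x → T.Free y → x N = y N → x ∈ A → y ∈ A

/-- a covering of `T` by `S` that is trivial up to level `k` -/
structure Cov (k : ℕ) (S T : Tr) where
  π : S.P → T.P
  φ : Bool → S.Str → T.Str
  len_π : ∀ p, T.len (π p) = S.len p
  par_π : ∀ p, π (S.par p) = T.par (π p)
  tab_π : ∀ p, S.tab p = none → T.tab (π p) = none
  loc : ∀ i (σ σ' : S.Str) n, (∀ p, S.len p ≤ n → σ.1 p = σ'.1 p) →
    ∀ q, T.len q ≤ n → (φ i σ).1 q = (φ i σ').1 q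
  lift : ∀ i σ x, T.Br x → T.Fol i (φ i σ) x → ∃ y, S.Br y ∧ S.Fol i σ y ∧ (∀ n, π (y n) = x n) ∧
    ((∃ n, S.tab (y n) = some (!i)) → ∃ n, T.tab (x n) = some (!i))
  inj : ∀ p p', S.len p ≤ k → π p = π p' → p = p'
  surj : ∀ q, T.len q ≤ k → ∃ p, π p = q
  tab_eq : ∀ p, S.len p ≤ k → T.tab (π p) = S.tab p
  φ_eq : ∀ i σ p, S.len p < k → (φ i σ).1 (π p) = π (σ.1 p)

/-- games decided at a fixed level are determined -/
def StDec : Prop := ∀ (T : Tr) (A : Set (ℕ → T.P)) (N : ℕ), T.Dec A N → T.Det A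

/-- unraveling of an open set -/
def StOpen : Prop := ∀ (T : Tr) (U : Set T.P) (k : ℕ), ∃ (S : Tr) (c : Cov k S T) (N : ℕ),
  S.Dec {y | ∃ n, c.π (y n) ∈ U} N

/-- inverse limits -/
def StLim : Prop := ∀ (k : ℕ) (T : ℕ → Tr) (c : ∀ j, Cov (k + j) (T (j + 1)) (T j)),
  ∃ (S : Tr) (d : Cov k S (T 0)) (ρ : ∀ j, S.P → (T j).P), ρ 0 = d.π ∧
    (∀ j p, (c j).π (ρ (j + 1) p) = ρ j p) ∧ (∀ j p, (T j).len (ρ j p) = S.len p) ∧
    (∀ j p, ρ j (S.par p) = (T j).par (ρ j p)) ∧ ∀ j p, S.tab p = none → (T j).tab (ρ j p) = none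

end Pool.Agent.Lib.MP_fa224b_lc.BD
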